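import Pool.Agent.Y41.EV.Base

/-!
General variation functions: `ψ` is exact.
-/

set_option autoImplicit false

namespace Pool.Agent.Y41.EV

open MeasureTheory Filter Topology
open scoped ENNReal

/-- The `φ`-variation on `[s, t]`: the limit, as `η → 0`, of the supremum of the `φ`-sums over
the partitions of mesh at most `η`. -/
noncomputable def Vgen (φ : ℝ → ℝ) (f : C(unitInterval, ℂ)) (s t : unitInterval) : ℝ≥0∞ :=
  ⨅ η : ℝ, ⨅ _ : 0 < η, ⨆ n : ℕ, ⨆ τ : ℕ → unitInterval,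
    ⨆ _ : Monotone τ ∧ τ 0 = s ∧ τ n = t ∧ ∀ i < n, (τ (i + 1) : ℝ) - τ i ≤ η,
    ENNReal.ofReal (∑ i ∈ Finset.range n, φ (dist (f (τ i)) (f (τ (i + 1)))))

theorem Vgen_psi (f : C(unitInterval, ℂ)) (s t : unitInterval) : Vgen psi f s t = Vpsi f s t := rfl

theorem uc (f : C(unitInterval, ℂ)) {ε : ℝ} (hε : 0 < ε) : ∃ η : ℝ, 0 < η ∧
    ∀ u v : unitInterval, u ≤ v → (v : ℝ) - u ≤ η → dist (f u) (f v) < ε := by
  have h := CompactSpace.uniformContinuous_of_continuous f.continuous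
  rw [Metric.uniformContinuous_iff] at h
  obtain ⟨d, hd, h1⟩ := h ε hε
  refine ⟨d / 2, by positivity, fun u v huv hv => h1 ?_⟩
  have huv' : (u : ℝ) ≤ v := huv
  rw [Subtype.dist_eq, Real.dist_eq, abs_sub_comm, abs_of_nonneg (by linarith)]
  linarith

theorem psi_pos {x : ℝ} (hx : 0 < x) : 0 < psi x := by
  unfold psi
  have := ll_pos x
  positivity

/-- Larger functions have infinite variation. -/
theorem vgen_top {φ : ℝ → ℝ} {f : C(unitInterval, ℂ)} {T c : ℝ} (hT : 0 < T) (hc : 0 < c)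
    (h : LOF f T c) (h0 : 0 ≤ φ 0) (hφ : Tendsto (fun x => φ x / psi x) (𝓝[>] 0) atTop)
    {s t : unitInterval} (hst : s < t) : Vgen φ f s t = ⊤ := by
  have hst' : (s : ℝ) < t := hst
  rw [eq_top_iff]
  refine le_iInf₂ fun η hη => ?_
  refine ENNReal.le_of_forall_nnreal_lt fun M _ => ?_
  obtain ⟨L, hL⟩ : ∃ L : ℝ, L = M / (c / 2 * T * ((t : ℝ) - s)) := ⟨_, rfl⟩
  have hd : 0 < (t : ℝ) - s := by linarith
  have hL0 : 0 ≤ L := by rw [hL]; positivity
  have h1 := hφ.eventually (eventually_ge_atTop L)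
  rw [eventually_nhdsWithin_iff, Metric.eventually_nhds_iff] at h1
  obtain ⟨ε, hε, h2⟩ := h1
  obtain ⟨η1, hη1, h3⟩ := uc f (lt_min hε one_pos)
  obtain ⟨n, τ, g1, g2, g3, g4, g5⟩ := h s t hst.le (min η η1) (lt_min hη hη1)
    (c / 2 * T * ((t : ℝ) - s)) (by
      have : 0 < T * ((t : ℝ) - s) := by positivity
      nlinarith)
  refine le_iSup_of_le n (le_iSup_of_le τ (le_iSup_of_le
    ⟨g1, g2, g3, fun i hi => (g4 i hi).trans (min_le_left _ _)⟩ ?_))
  rw [← ENNReal.ofReal_coe_nnreal]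
  refine ENNReal.ofReal_le_ofReal ?_
  have h4 : ∀ i ∈ Finset.range n, L * psi (dist (f (τ i)) (f (τ (i + 1)))) ≤
      φ (dist (f (τ i)) (f (τ (i + 1)))) := by
    intro i hi
    rw [Finset.mem_range] at hi
    have h5 := h3 (τ i) (τ (i + 1)) (g1 (Nat.le_succ i)) ((g4 i hi).trans (min_le_right _ _))
    have h6 : 0 ≤ dist (f (τ i)) (f (τ (i + 1))) := dist_nonneg
    generalize dist (f (τ i)) (f (τ (i + 1))) = x at h5 h6 ⊢
    rcases h6.eq_or_lt with h7 | h7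
    · rw [← h7, psi_zero, mul_zero]
      exact h0
    · have h8 := h2 (y := x) (by
        rw [Real.dist_eq, sub_zero, abs_of_pos h7]
        exact lt_of_lt_of_le h5 (min_le_left _ _)) h7
      rwa [le_div_iff₀ (psi_pos h7)] at h8
  calc (M : ℝ) = L * (c / 2 * T * ((t : ℝ) - s)) := by rw [hL]; field_simp
    _ ≤ L * ∑ i ∈ Finset.range n, psi (dist (f (τ i)) (f (τ (i + 1)))) :=
        mul_le_mul_of_nonneg_left g5 hL0
    _ = ∑ i ∈ Finset.range n, L * psi (dist (f (τ i)) (f (τ (i + 1)))) := Finset.mul_sum _ _ _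
    _ ≤ _ := Finset.sum_le_sum h4

/-- Smaller functions have zero variation. -/
theorem vgen_zero {φ : ℝ → ℝ} {f : C(unitInterval, ℂ)} {T C : ℝ} (hT : 0 < T) (hC : 0 < C)
    (h : UPF f T C) (h0 : φ 0 ≤ 0) (hφ : Tendsto (fun x => φ x / psi x) (𝓝[>] 0) (𝓝 0))
    {s t : unitInterval} (hst : s ≤ t) : Vgen φ f s t = 0 := by
  have hst' : (s : ℝ) ≤ t := hst
  have hd : 0 ≤ (t : ℝ) - s := by linarith
  rw [← nonpos_iff_eq_zero]
  refine ENNReal.le_of_forall_pos_le_add fun r hr _ => ?_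
  rw [zero_add]
  have hr' : (0 : ℝ) < r := by exact_mod_cast hr
  obtain ⟨L, hL⟩ : ∃ L : ℝ, L = r / (C * T * ((t : ℝ) - s) + 1) := ⟨_, rfl⟩
  have hden : 0 < C * T * ((t : ℝ) - s) + 1 := by positivity
  have hL0 : 0 < L := by rw [hL]; positivity
  have h1 := hφ.eventually (ge_mem_nhds hL0)
  rw [eventually_nhdsWithin_iff, Metric.eventually_nhds_iff] at h1
  obtain ⟨ε, hε, h2⟩ := h1
  obtain ⟨η1, hη1, h3⟩ := uc f hε
  obtain ⟨η2, hη2, h4⟩ := h 1 one_pos
  refine (iInf₂_le (min η1 η2) (lt_min hη1 hη2)).trans ?_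
  refine iSup_le fun n => iSup_le fun τ => iSup_le fun ⟨g1, g2, g3, g4⟩ => ?_
  have h5 := h4 n τ (fun i => τ (i + 1)) (fun i hi => ⟨g1 (Nat.le_succ i),
    (g4 i hi).trans (min_le_right _ _)⟩) (fun i j hij _ => g1 hij)
  rw [Finset.sum_range_sub (fun i => (τ i : ℝ)), g2, g3] at h5
  have h6 : ∀ i ∈ Finset.range n, φ (dist (f (τ i)) (f (τ (i + 1)))) ≤
      L * psi (dist (f (τ i)) (f (τ (i + 1)))) := by
    intro i hi
    rw [Finset.mem_range] at hi
    have h7 := h3 (τ i) (τ (i + 1)) (g1 (Nat.le_succ i)) ((g4 i hi).trans (min_le_left _ _))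
    have h8 : 0 ≤ dist (f (τ i)) (f (τ (i + 1))) := dist_nonneg
    generalize dist (f (τ i)) (f (τ (i + 1))) = x at h7 h8 ⊢
    rcases h8.eq_or_lt with h9 | h9
    · rw [← h9, psi_zero, mul_zero]
      exact h0
    · have h10 := h2 (y := x) (by rw [Real.dist_eq, sub_zero, abs_of_pos h9]; exact h7) h9
      rwa [div_le_iff₀ (psi_pos h9)] at h10
  have h7 : ∑ i ∈ Finset.range n, φ (dist (f (τ i)) (f (τ (i + 1)))) ≤ r := by
    calc ∑ i ∈ Finset.range n, φ (dist (f (τ i)) (f (τ (i + 1))))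
        ≤ ∑ i ∈ Finset.range n, L * psi (dist (f (τ i)) (f (τ (i + 1)))) := Finset.sum_le_sum h6
      _ = L * ∑ i ∈ Finset.range n, psi (dist (f (τ i)) (f (τ (i + 1)))) :=
          (Finset.mul_sum _ _ _).symm
      _ ≤ L * (C * T * ((t : ℝ) - s) + 1) := mul_le_mul_of_nonneg_left h5 hL0.le
      _ = r := by rw [hL]; field_simp
  refine (ENNReal.ofReal_le_ofReal h7).trans (le_of_eq ?_)
  exact ENNReal.ofReal_coe_nnreal

/-- `x ^ (7/4)` is larger than `ψ`. -/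
theorem rpow_psi : Tendsto (fun x : ℝ => x ^ (7/4 : ℝ) / psi x) (𝓝[>] 0) atTop := by
  have h1 : Tendsto (fun x : ℝ => ll x ^ (3/4 : ℝ)) (𝓝[>] 0) atTop := by
    refine (tendsto_rpow_atTop (by norm_num)).comp ?_
    refine tendsto_atTop_mono (fun x => le_max_right _ _) ?_
    have h2 : Tendsto (fun x : ℝ => 1 / x) (𝓝[>] 0) atTop := by
      simpa only [one_div] using tendsto_inv_nhdsGT_zero (𝕜 := ℝ)
    exact Real.tendsto_log_atTop.comp (Real.tendsto_log_atTop.comp h2)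
  refine h1.congr' ?_
  filter_upwards [self_mem_nhdsWithin] with x hx
  have hx' : 0 < x := hx
  have h2 : 0 < x ^ (7/4 : ℝ) := by positivity
  have h3 := ll_pos x
  unfold psi
  field_simp

end Pool.Agent.Y41.EV
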