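import Pool.Agent.Y41.EV.Base

/-!
The `ψ`-variation from the two bounds.
-/

set_option autoImplicit false

namespace Pool.Agent.Y41.EV

open MeasureTheory Filter Topology
open scoped ENNReal

theorem vpsi_le {f : C(unitInterval, ℂ)} {T C : ℝ} (hT : 0 < T) (hC : 0 < C) (h : UPF f T C)
    {s t : unitInterval} (hst : s ≤ t) :
    Vpsi f s t ≤ ENNReal.ofReal (C * T * ((t : ℝ) - s)) := by
  have hst' : (s : ℝ) ≤ t := hst
  refine ENNReal.le_of_forall_pos_le_add fun ε hε _ => ?_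
  obtain ⟨η, hη, h1⟩ := h ε (by exact_mod_cast hε)
  refine (iInf₂_le η hη).trans ?_
  refine iSup_le fun n => iSup_le fun τ => iSup_le fun ⟨g1, g2, g3, g4⟩ => ?_
  have h2 := h1 n τ (fun i => τ (i + 1)) (fun i hi => ⟨g1 (Nat.le_succ i), g4 i hi⟩)
    (fun i j hij _ => g1 hij)
  rw [Finset.sum_range_sub (fun i => (τ i : ℝ)), g2, g3] at h2
  refine (ENNReal.ofReal_le_ofReal h2).trans ?_
  rw [ENNReal.ofReal_add (by
    have : 0 ≤ (t : ℝ) - s := by linarith
    positivity) (by positivity)]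
  simp

theorem vpsi_ge {f : C(unitInterval, ℂ)} {T c : ℝ} (h : LOF f T c)
    {s t : unitInterval} (hst : s ≤ t) :
    ENNReal.ofReal (c * T * ((t : ℝ) - s)) ≤ Vpsi f s t := by
  refine le_iInf₂ fun η hη => ?_
  refine le_of_forall_lt_imp_le_of_dense fun z hz => ?_
  have hz' : z ≠ ⊤ := (hz.trans_le le_top).ne
  have hx : z.toReal < c * T * ((t : ℝ) - s) := by
    by_contra hcon
    push Not at hcon
    have := ENNReal.ofReal_le_ofReal hcon
    rw [ENNReal.ofReal_toReal hz'] at this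
    exact absurd hz (not_lt.2 this)
  obtain ⟨n, τ, g1, g2, g3, g4, g5⟩ := h s t hst η hη _ hx
  have h2 := ENNReal.ofReal_le_ofReal g5
  rw [ENNReal.ofReal_toReal hz'] at h2
  exact h2.trans (le_iSup_of_le n (le_iSup_of_le τ (le_iSup_of_le ⟨g1, g2, g3, g4⟩ le_rfl)))

end Pool.Agent.Y41.EV
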