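import Pool.Agent.Y41.EV.StmL
import Pool.Agent.Y41.EV.Var
import Pool.Agent.Y41.EV.Gen
import Pool.Agent.Y995.HG.UpS

/-!
Assembly.
-/

set_option autoImplicit false

namespace Pool.Agent.Y41.EV

open H974 Finset H342P H984P H984N Pool.Agent.Y985.ME Pool.Agent.Y995.FS Pool.Agent.Y995.HG
open MeasureTheory Filter Topology
open scoped ENNReal

/-- All properties of the limits. -/
def Goal : Prop := ∃ c C : ℝ, 0 < c ∧ 0 < C ∧ ∀ R : Rect,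
    (∀ δ : ℕ → ℝ, (∀ i, 0 < δ i) → Tendsto δ atTop (𝓝 0) →
      ∃ φ : ℕ → ℕ, StrictMono φ ∧ ∃ μ : ProbabilityMeasure X,
        Tendsto (fun i => R.law (δ (φ i))) atTop (𝓝 μ)) ∧
    ∀ δ : ℕ → ℝ, (∀ i, 0 < δ i) → Tendsto δ atTop (𝓝 0) → ∀ μ : ProbabilityMeasure X,
      Tendsto (fun i => R.law (δ i)) atTop (𝓝 μ) →
      ∀ᵐ p ∂(μ : Measure X), 0 < p.2 ∧ UPF p.1 p.2 C ∧ LOF p.1 p.2 c ∧
        ∀ᵐ t : unitInterval,
          (∀ᶠ s : unitInterval in 𝓝 t, dist (p.1 s) (p.1 t) ≤ C * phi (p.2 * |(s : ℝ) - t|)) ∧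
          ∃ᶠ s : unitInterval in 𝓝 t, c * phi (p.2 * |(s : ℝ) - t|) < dist (p.1 s) (p.1 t)

theorem UPF.mono {f : C(unitInterval, ℂ)} {T C C' : ℝ} (hT : 0 < T) (h : UPF f T C)
    (hC : C ≤ C') : UPF f T C' := by
  intro ε hε
  obtain ⟨η, hη, h1⟩ := h ε hε
  refine ⟨η, hη, fun n a b h2 h3 => (h1 n a b h2 h3).trans ?_⟩
  have h4 : 0 ≤ ∑ i ∈ Finset.range n, ((b i : ℝ) - a i) := by
    refine Finset.sum_nonneg fun i hi => ?_
    rw [Finset.mem_range] at hi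
    have : (a i : ℝ) ≤ b i := (h2 i hi).1
    linarith
  have h5 : C * T * ∑ i ∈ Finset.range n, ((b i : ℝ) - a i) ≤
      C' * T * ∑ i ∈ Finset.range n, ((b i : ℝ) - a i) :=
    mul_le_mul_of_nonneg_right (mul_le_mul_of_nonneg_right hC hT.le) h4
  linarith

theorem LOF.mono {f : C(unitInterval, ℂ)} {T c c' : ℝ} (hT : 0 < T) (h : LOF f T c)
    (hc : c' ≤ c) : LOF f T c' := by
  intro s t hst η hη x hx
  refine h s t hst η hη x (hx.trans_le ?_)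
  have hst' : (s : ℝ) ≤ t := hst
  exact mul_le_mul_of_nonneg_right (mul_le_mul_of_nonneg_right hc hT.le) (by linarith)

theorem phi_nonneg {x : ℝ} (hx : 0 ≤ x) : 0 ≤ phi x := by
  unfold phi
  have := ll_pos x
  positivity

theorem goal_of (h1 : S_LOWBULK) (h2 : S_LOWALL) (h3 : S_UPDET) (h4 : S_LILUP)
    (h5 : S_LILLOW) (h6 : S_MANYP) (h7 : S_BADVM) (h8 : S_LATV) (h9 : S_BADVO) (h10 : S_SC3)
    (h11 : S_AEV) (h12 : S_ZERO) (h13 : FM) (h14 : S_FTM) (h15 : S_FTLAT) (h16 : S_FTOPEN)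
    (h17 : S_FTAE) : Goal := by
  obtain ⟨⟨c, hc, hL⟩, ⟨C, hC, hU⟩, -⟩ := inputs
  obtain ⟨θ, K2, A0, hθ, hK2, hA0, hlat⟩ := h8 h6 h7 c C hc hC hL hU
  obtain ⟨c0, hc0, hbulk⟩ := h1 θ K2 A0 hθ hK2 hA0
  obtain ⟨a, B, ha, hB, hft⟩ := h15 h13 h14
  obtain ⟨K, hK, hae⟩ := h17 h16 a B ha hB
  obtain ⟨C1, hC1, hup⟩ := h3 K hK
  obtain ⟨C3, hC3, hlu⟩ := h4 K hK
  obtain ⟨c', hc', hll⟩ := h5 c0 C1 hc0 hC1
  obtain ⟨cg, Cg, -, -, hgs⟩ := gauge_sets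
  refine ⟨min c0 c', max C1 C3, lt_min hc0 hc', lt_max_of_lt_left hC1, fun R => ?_⟩
  obtain ⟨A, hA, hlatR⟩ := hlat R
  obtain ⟨A2, y0, hA2, hy0, hftR⟩ := hft R
  refine ⟨(hgs R).1, fun δ hδ hlim μ hμ => ?_⟩
  filter_upwards [(hgs R).2 δ hδ hlim μ hμ, h11 h9 h10 θ K2 A0 hθ hK2 hA0 R A hA hlatR δ hδ hlim
    μ hμ, h12 R δ hδ hlim μ hμ, hae R A2 y0 hA2 hy0 hftR δ hδ hlim μ hμ] with p g1 g2 g3 g4
  have hT := g1.1
  have hU1 : UPF p.1 p.2 C1 := hup p hT g4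
  have hL1 : LOF p.1 p.2 c0 := by
    refine h2 p.1 p.2 c0 (fun u => dep R (p.1 u)) ((dep_cont R).comp p.1.continuous) hT hc0 g3 ?_
    intro k s t hst hin η hη
    refine hbulk p.1 p.2 {u | 1 / ((k : ℝ) + 1) < dep R (p.1 u)} hT ?_ s t hst hin η hη
    filter_upwards [g2 k] with i hi
    intro s' t' hsub hlen
    by_contra hcon
    exact hi ⟨s', t', fun u hu1 hu2 => hsub ⟨hu1, hu2⟩, hlen, hcon⟩
  refine ⟨hT, hU1.mono hT (le_max_left _ _), hL1.mono hT (min_le_left _ _), ?_⟩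
  filter_upwards [hlu p hT g4, hll p.1 p.2 hT hU1 hL1] with t t1 t2
  constructor
  · filter_upwards [t1] with s hs
    refine hs.trans (mul_le_mul_of_nonneg_right (le_max_right _ _) (phi_nonneg ?_))
    positivity
  · refine t2.mono fun s hs => lt_of_le_of_lt ?_ hs
    refine mul_le_mul_of_nonneg_right (min_le_right _ _) (phi_nonneg ?_)
    positivity

end Pool.Agent.Y41.EV
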