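import Mathlib

/-!
The function `ψ(x) = x ^ (7/4) / (log log (1/x)) ^ (3/4)`, sums over partitions, fast pairs, fast
times (project EV: exact variation of the limits of the exploration path).
-/

set_option autoImplicit false

namespace Pool.Agent.Y41.EV

open MeasureTheory Filter Topology
open scoped ENNReal

/-- `max 1 (log log (1/x))` -/
noncomputable def ll (x : ℝ) : ℝ := max 1 (Real.log (Real.log (1 / x)))

/-- `x ^ (7/4) / (log log (1/x)) ^ (3/4)` -/
noncomputable def psi (x : ℝ) : ℝ := x ^ (7/4 : ℝ) / ll x ^ (3/4 : ℝ)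

/-- `x ^ (4/7) (log log (1/x)) ^ (3/7)` -/
noncomputable def phi (x : ℝ) : ℝ := x ^ (4/7 : ℝ) * ll x ^ (3/7 : ℝ)

theorem ll_ge (x : ℝ) : 1 ≤ ll x := le_max_left _ _

theorem ll_pos (x : ℝ) : 0 < ll x := lt_of_lt_of_le one_pos (ll_ge x)

theorem ll_anti {x y : ℝ} (hx : 0 < x) (hxy : x ≤ y) (hy : y ≤ 1) : ll y ≤ ll x := by
  unfold ll
  have hy0 : 0 < y := lt_of_lt_of_le hx hxy
  have h1 : Real.log (1 / y) ≤ Real.log (1 / x) :=
    Real.log_le_log (by positivity) (one_div_le_one_div_of_le hx hxy)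
  have h2 : 0 ≤ Real.log (1 / y) := Real.log_nonneg (by rw [le_div_iff₀ hy0]; linarith)
  rcases h2.eq_or_lt with h3 | h3
  · rw [← h3, Real.log_zero]
    exact max_le (le_max_left _ _) (le_max_of_le_left (by norm_num))
  · exact max_le_max le_rfl (Real.log_le_log h3 h1)

theorem psi_nonneg {x : ℝ} (hx : 0 ≤ x) : 0 ≤ psi x := by
  unfold psi
  have := ll_pos x
  positivity

theorem psi_zero : psi 0 = 0 := by
  unfold psi
  rw [Real.zero_rpow (by norm_num), zero_div]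

theorem psi_mono {x y : ℝ} (hx : 0 ≤ x) (hxy : x ≤ y) (hy : y ≤ 1) : psi x ≤ psi y := by
  rcases hx.eq_or_lt with h0 | h0
  · rw [← h0, psi_zero]
    exact psi_nonneg (h0 ▸ hxy)
  have h1 := ll_anti h0 hxy hy
  have h2 := ll_pos y
  unfold psi
  exact div_le_div₀ (Real.rpow_nonneg (hx.trans hxy) _) (Real.rpow_le_rpow hx hxy (by norm_num))
    (by positivity)
    (Real.rpow_le_rpow h2.le h1 (by norm_num))

theorem psi_le {x : ℝ} (hx : 0 ≤ x) : psi x ≤ x ^ (7/4 : ℝ) := by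
  unfold psi
  exact div_le_self (by positivity) (Real.one_le_rpow (ll_ge x) (by norm_num))

/-- There is a partition of `[s, t]` of mesh at most `η` with `ψ`-sum at least `x`. -/
def VG (f : C(unitInterval, ℂ)) (η : ℝ) (s t : unitInterval) (x : ℝ) : Prop :=
  ∃ (n : ℕ) (τ : ℕ → unitInterval), Monotone τ ∧ τ 0 = s ∧ τ n = t ∧
    (∀ i < n, (τ (i + 1) : ℝ) - τ i ≤ η) ∧
    x ≤ ∑ i ∈ Finset.range n, psi (dist (f (τ i)) (f (τ (i + 1))))

/-- The `ψ`-variation on `[s, t]`: the limit, as `η → 0`, of the supremum of the `ψ`-sums over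
the partitions of mesh at most `η`. -/
noncomputable def Vpsi (f : C(unitInterval, ℂ)) (s t : unitInterval) : ℝ≥0∞ :=
  ⨅ η : ℝ, ⨅ _ : 0 < η, ⨆ n : ℕ, ⨆ τ : ℕ → unitInterval,
    ⨆ _ : Monotone τ ∧ τ 0 = s ∧ τ n = t ∧ ∀ i < n, (τ (i + 1) : ℝ) - τ i ≤ η,
    ENNReal.ofReal (∑ i ∈ Finset.range n, psi (dist (f (τ i)) (f (τ (i + 1)))))

/-- Upper bound for the `ψ`-sums over non-overlapping intervals. -/
def UPF (f : C(unitInterval, ℂ)) (T C : ℝ) : Prop :=
  ∀ ε : ℝ, 0 < ε → ∃ η : ℝ, 0 < η ∧ ∀ (n : ℕ) (a b : ℕ → unitInterval),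
    (∀ i < n, a i ≤ b i ∧ (b i : ℝ) - a i ≤ η) → (∀ i j, i < j → j < n → b i ≤ a j) →
    ∑ i ∈ Finset.range n, psi (dist (f (a i)) (f (b i))) ≤
      C * T * ∑ i ∈ Finset.range n, ((b i : ℝ) - a i) + ε

/-- Lower bound for the `ψ`-variation. -/
def LOF (f : C(unitInterval, ℂ)) (T c : ℝ) : Prop :=
  ∀ s t : unitInterval, s ≤ t → ∀ η : ℝ, 0 < η → ∀ x : ℝ, x < c * T * ((t : ℝ) - s) →
    VG f η s t x

/-! ### Elementary facts -/

theorem VG.le {f : C(unitInterval, ℂ)} {η : ℝ} {s t : unitInterval} {x y : ℝ}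
    (h : VG f η s t x) (hxy : y ≤ x) : VG f η s t y := by
  obtain ⟨n, τ, h1, h2, h3, h4, h5⟩ := h
  exact ⟨n, τ, h1, h2, h3, h4, hxy.trans h5⟩

theorem VG.refl (f : C(unitInterval, ℂ)) (η : ℝ) (s : unitInterval) : VG f η s s 0 :=
  ⟨0, fun _ => s, monotone_const, rfl, rfl, fun i hi => absurd hi (by omega), by simp⟩

theorem VG.single {f : C(unitInterval, ℂ)} {η : ℝ} {s t : unitInterval} (hst : s ≤ t)
    (h : (t : ℝ) - s ≤ η) : VG f η s t (psi (dist (f s) (f t))) := by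
  refine ⟨1, fun i => if i = 0 then s else t, ?_, by simp, by simp, ?_, ?_⟩
  · intro i j hij
    simp only
    split_ifs with h1 h2 h2
    · exact le_rfl
    · exact hst
    · omega
    · exact le_rfl
  · intro i hi
    have : i = 0 := by omega
    subst this
    simpa using h
  · simp

/-- Concatenation. -/
theorem VG.add {f : C(unitInterval, ℂ)} {η : ℝ} {s t u : unitInterval} {x y : ℝ}
    (h : VG f η s t x) (h' : VG f η t u y) : VG f η s u (x + y) := by
  obtain ⟨n, τ, h1, h2, h3, h4, h5⟩ := h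
  obtain ⟨n', τ', h1', h2', h3', h4', h5'⟩ := h'
  obtain ⟨σ, hσ⟩ : ∃ σ : ℕ → unitInterval, σ = fun i => if i ≤ n then τ i else τ' (i - n) :=
    ⟨_, rfl⟩
  have e1 : ∀ i ≤ n, σ i = τ i := fun i hi => by rw [hσ]; simp only; rw [if_pos hi]
  have e2 : ∀ i, n ≤ i → σ i = τ' (i - n) := by
    intro i hi
    rcases hi.eq_or_lt with h | h
    · rw [← h, e1 n le_rfl, h3, Nat.sub_self, h2']
    · rw [hσ]; simp only; rw [if_neg (by omega)]
  refine ⟨n + n', σ, ?_, by rw [e1 0 (Nat.zero_le _), h2], ?_, ?_, ?_⟩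
  · refine monotone_nat_of_le_succ fun i => ?_
    rcases Nat.lt_or_ge i n with h | h
    · rw [e1 i h.le, e1 (i + 1) h]
      exact h1 (Nat.le_succ i)
    · rw [e2 i h, e2 (i + 1) (by omega)]
      exact h1' (by omega)
  · rw [e2 (n + n') (by omega), Nat.add_sub_cancel_left, h3']
  · intro i hi
    rcases Nat.lt_or_ge i n with h | h
    · rw [e1 i h.le, e1 (i + 1) h]
      exact h4 i h
    · rw [e2 i h, e2 (i + 1) (by omega), show i + 1 - n = i - n + 1 by omega]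
      exact h4' (i - n) (by omega)
  · rw [Finset.sum_range_add]
    refine add_le_add (h5.trans (le_of_eq ?_)) (h5'.trans (le_of_eq ?_))
    · refine Finset.sum_congr rfl fun i hi => ?_
      rw [Finset.mem_range] at hi
      rw [e1 i hi.le, e1 (i + 1) hi]
    · refine Finset.sum_congr rfl fun i hi => ?_
      rw [e2 (n + i) (by omega), e2 (n + i + 1) (by omega), Nat.add_sub_cancel_left,
        show n + i + 1 - n = i + 1 by omega]

/-- Partitions of small mesh exist. -/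
theorem VG.triv (f : C(unitInterval, ℂ)) {η : ℝ} (hη : 0 < η) {s t : unitInterval} (hst : s ≤ t) :
    VG f η s t 0 := by
  have hst' : (s : ℝ) ≤ t := hst
  obtain ⟨n, hn⟩ := exists_nat_gt (1 / η)
  have hn0 : (0 : ℝ) < n := lt_trans (by positivity) hn
  have hn1 : 1 < η * n := by rwa [div_lt_iff₀ hη, mul_comm] at hn
  obtain ⟨σ, hσ⟩ : ∃ σ : ℕ → ℝ, σ = fun i : ℕ =>
    (s : ℝ) + min ((i : ℝ) / n) 1 * ((t : ℝ) - s) := ⟨_, rfl⟩
  have hd0 : 0 ≤ (t : ℝ) - s := by linarith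
  have hd1 : (t : ℝ) - s ≤ 1 := by have := t.2.2; have := s.2.1; linarith
  have hmin0 : ∀ i : ℕ, 0 ≤ min ((i : ℝ) / n) 1 := fun i => le_min (by positivity) zero_le_one
  have hσ0 : ∀ i, (s : ℝ) ≤ σ i := by
    intro i
    rw [hσ]
    simp only
    have := mul_nonneg (hmin0 i) hd0
    linarith
  have hσ1 : ∀ i, σ i ≤ t := by
    intro i
    rw [hσ]
    simp only
    have := mul_le_mul_of_nonneg_right (min_le_right ((i : ℝ) / n) 1) hd0
    linarith
  have hmono : Monotone σ := by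
    intro i j hij
    rw [hσ]
    simp only
    have h1 : min ((i : ℝ) / n) 1 ≤ min ((j : ℝ) / n) 1 :=
      min_le_min (div_le_div_of_nonneg_right (by exact_mod_cast hij) hn0.le) le_rfl
    have := mul_le_mul_of_nonneg_right h1 hd0
    linarith
  refine ⟨n, fun i => ⟨σ i, s.2.1.trans (hσ0 i), (hσ1 i).trans t.2.2⟩, fun i j hij => hmono hij,
    ?_, ?_, ?_, ?_⟩
  · apply Subtype.ext
    show σ 0 = s
    rw [hσ]
    simp
  · apply Subtype.ext
    show σ n = t
    rw [hσ]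
    simp only
    rw [div_self hn0.ne', min_self]
    ring
  · intro i _
    show σ (i + 1) - σ i ≤ η
    rw [hσ]
    simp only
    have h1 : min (((i + 1 : ℕ) : ℝ) / n) 1 ≤ min ((i : ℝ) / n) 1 + 1 / n := by
      rcases le_total ((i : ℝ) / n) 1 with h | h
      · rw [min_eq_left h]
        refine (min_le_left _ _).trans (le_of_eq ?_)
        push_cast
        ring
      · rw [min_eq_right h]
        refine (min_le_right _ _).trans ?_
        have : 0 < 1 / (n : ℝ) := by positivity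
        linarith
    have h2 : (1:ℝ) / n ≤ η := by
      rw [div_le_iff₀ hn0]; linarith
    have h3 : (min (((i + 1 : ℕ) : ℝ) / n) 1 - min ((i : ℝ) / n) 1) * ((t : ℝ) - s) ≤
        1 / n * 1 := mul_le_mul (by linarith) hd1 hd0 (by positivity)
    nlinarith
  · refine Finset.sum_nonneg fun i _ => psi_nonneg dist_nonneg

/-! ### Fast pairs -/

/-- `N` disjoint fast pairs in `[s, t]`: displacement at least `w` in natural time at most `τ`. -/
def Pairs (f : C(unitInterval, ℂ)) (T w τ : ℝ) (N : ℕ) (s t : unitInterval) : Prop :=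
  ∃ u v : Fin N → unitInterval, (∀ a, s ≤ u a ∧ u a ≤ v a ∧ v a ≤ t) ∧
    (∀ a b, a ≠ b → v a ≤ u b ∨ v b ≤ u a) ∧
    ∀ a, w ≤ dist (f (u a)) (f (v a)) ∧ T * ((v a : ℝ) - u a) ≤ τ

/-- The same with pairs in increasing order. -/
def PairsO (f : C(unitInterval, ℂ)) (T w τ : ℝ) (N : ℕ) (s t : unitInterval) : Prop :=
  ∃ u v : Fin N → unitInterval, (∀ a, s ≤ u a ∧ u a ≤ v a ∧ v a ≤ t) ∧
    (∀ a b, a < b → v a ≤ u b) ∧
    ∀ a, w ≤ dist (f (u a)) (f (v a)) ∧ T * ((v a : ℝ) - u a) ≤ τ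

theorem Pairs.sort {f : C(unitInterval, ℂ)} {T w τ : ℝ} {N : ℕ} {s t : unitInterval}
    (hw : 0 < w) (h : Pairs f T w τ N s t) : PairsO f T w τ N s t := by
  obtain ⟨u, v, h1, h2, h3⟩ := h
  obtain ⟨σ, hσ⟩ : ∃ σ : Equiv.Perm (Fin N), σ = Tuple.sort u := ⟨_, rfl⟩
  have hm : Monotone (u ∘ σ) := by rw [hσ]; exact Tuple.monotone_sort u
  refine ⟨u ∘ σ, v ∘ σ, fun a => h1 (σ a), fun a b hab => ?_, fun a => h3 (σ a)⟩
  have hne : σ a ≠ σ b := fun h => hab.ne (σ.injective h)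
  rcases h2 _ _ hne with h | h
  · exact h
  · exfalso
    have h4 : u (σ a) ≤ u (σ b) := hm hab.le
    have h5 : u (σ b) ≤ v (σ b) := (h1 (σ b)).2.1
    have h6 : u (σ b) = v (σ b) := le_antisymm h5 (h.trans h4)
    have h7 := (h3 (σ b)).1
    rw [h6, dist_self] at h7
    linarith

/-! ### Fast times -/

/-- Times next to which the curve moves fast. -/
def FT (p : C(unitInterval, ℂ) × ℝ) (y h : ℝ) : Set unitInterval :=
  {t | ∃ s : unitInterval, p.2 * |(s : ℝ) - t| < h ∧ y < dist (p.1 s) (p.1 t)}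

/-- displacements of the scale `n` and the class `j` -/
noncomputable def yy (K : ℝ) (n j : ℕ) : ℝ :=
  2 ^ j * (K * ((((1:ℝ)/2) ^ n) ^ (4/7 : ℝ) * Real.log n ^ (3/7 : ℝ)))

/-- The fast times are rare. -/
def FTR (p : C(unitInterval, ℂ) × ℝ) (K : ℝ) : Prop := ∃ n0 : ℕ, ∀ n : ℕ, n0 ≤ n → ∀ j : ℕ,
  p.2 * (volume (FT p (yy K n j) (2 * (1/2) ^ n))).toReal ≤ (n : ℝ) ^ (-(2 * 2 ^ j) : ℝ)

end Pool.Agent.Y41.EV
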