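import Pool.Agent.Y41.EV.ManyD
import Pool.Agent.Y995.HG.ManyPr

/-!
Probability that all long pieces of the path contain many fast pairs (adaptation of
`Pool.Agent.Y995.HG.ManyPr`).
-/

set_option autoImplicit false

namespace Pool.Agent.Y41.EV

open H974 Finset H342P H984P H984N TH992.L Y994.MC Y994.MD Pool.Agent.Y995.FS
open Pool.Agent.Y995.HG

theorem manyp : S_MANYP := by
  classical
  intro c C hc hC hL hU
  obtain ⟨θ, K3, hθ, hK3, htr⟩ := fast_tr hc hC hL hU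
  obtain ⟨C1, hC1, hlow⟩ := lowG
  obtain ⟨Γ, hΓ, htri⟩ := trials (η := (1/648) ^ 196) hC1 (by positivity)
  obtain ⟨K1, hK1, hheavy⟩ := heavy_pr hC hU
  refine ⟨θ, K3, 2700 * Γ, K1, hθ, hK3, by linarith, hK1, ?_⟩
  intro m a kk ha ham hmk hkk hm5
  obtain ⟨Kt, hKt2, hKt, hbd⟩ := htri (K3 * (kk:ℝ)) (by positivity)
  obtain ⟨R, hR⟩ : ∃ R : ℤ, R = 121 * m * Kt + m + 2 := ⟨_, rfl⟩
  obtain ⟨L, hLd⟩ : ∃ L : ℤ, L = 3 * R + 60 * m := ⟨_, rfl⟩
  have hm5z : (5 : ℤ) ≤ m := by exact_mod_cast hm5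
  have hmK : (0 : ℤ) ≤ 121 * m * Kt := by positivity
  have hL0 : 0 < L := by omega
  obtain ⟨W, hWd⟩ : ∃ W : ℕ, W = (2 * L).toNat := ⟨_, rfl⟩
  have hW : (W : ℤ) = 2 * L := by omega
  have hW1 : 1 ≤ W := by omega
  obtain ⟨n, hnd⟩ : ∃ n : ℕ, n = (4 * L).toNat := ⟨_, rfl⟩
  have hn : (n : ℤ) = 4 * L := by omega
  have hm0 : (0 : ℝ) < m := by
    have : 0 < m := by omega
    exact_mod_cast this
  have hm5r : (5 : ℝ) ≤ m := by exact_mod_cast hm5
  have hKt2r : (2 : ℝ) ≤ Kt := by exact_mod_cast hKt2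
  have hmKt : (m : ℝ) * 2 ≤ m * Kt := mul_le_mul_of_nonneg_left hKt2r hm0.le
  have hLr : (L : ℝ) = 363 * (m * Kt) + 63 * m + 6 := by
    rw [hLd, hR]; push_cast; ring
  have hWr : (W : ℝ) = 2 * (L : ℝ) := by exact_mod_cast hW
  have hnr : (n : ℝ) = 4 * (L : ℝ) := by exact_mod_cast hn
  obtain ⟨M, hM⟩ : ∃ M : ℝ, M = θ * kk * (a : ℝ) ^ (7/4 : ℝ) := ⟨_, rfl⟩
  have hkk0 : (0 : ℝ) < kk := by
    have : 0 < kk := by omega
    exact_mod_cast this
  rw [← hM]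
  have hg := gF_good (20 * m) M
  have hlw := hlow (Qf a m kk M) (gF (20 * m) M) hg n m Kt (Real.exp (-(K3 * (kk:ℝ)))) R hm5
    (by omega) (Real.exp_le_one_iff.mpr (by
      have : 0 ≤ K3 * (kk:ℝ) := by positivity
      linarith)) (Qf_loc ha ham) (Qf_det ha ham hmk)
    (fun b' c' A y0 => by rw [hM]; exact htr a m kk ha ham hmk hkk _ A y0) (by rw [hR])
  have hsmall : C1 * ((n:ℝ) / m + 1) ^ 2 * (1 - Real.exp (-(K3 * (kk:ℝ)))) ^ (Kt - 1) ≤
      (1/648) ^ 196 := by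
    refine le_trans ?_ hbd
    have h1 : (n:ℝ) / m + 1 ≤ 1710 * Kt := by
      have h2 : (n:ℝ) / m ≤ 1452 * Kt + 257 := by
        rw [div_le_iff₀ hm0, hnr, hLr]
        nlinarith
      linarith
    have h0 : 0 ≤ (n:ℝ) / m + 1 := by positivity
    have h2 : ((n:ℝ) / m + 1) ^ 2 ≤ (1710 * (Kt : ℝ)) ^ 2 := pow_le_pow_left₀ h0 h1 2
    have h3 : Real.exp (-(K3 * (kk:ℝ))) ≤ 1 := by
      rw [Real.exp_le_one_iff]
      have : 0 ≤ K3 * (kk:ℝ) := by positivity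
      linarith
    exact mul_le_mul_of_nonneg_right (mul_le_mul_of_nonneg_left h2 hC1.le)
      (pow_nonneg (by linarith) _)
  refine ⟨W, L, hW, by omega, ?_, ?_⟩
  · rw [hWr, hLr]
    have h1 : (m : ℝ) * Kt ≤ m * (3 * Γ * Real.exp (2 * (K3 * (kk:ℝ)))) :=
      mul_le_mul_of_nonneg_left hKt hm0.le
    calc 2 * (363 * ((m : ℝ) * Kt) + 63 * m + 6) ≤ 900 * (m * Kt) := by nlinarith
      _ ≤ 900 * (m * (3 * Γ * Real.exp (2 * (K3 * (kk:ℝ))))) :=
          mul_le_mul_of_nonneg_left h1 (by norm_num)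
      _ = _ := by ring
  · intro D hD N hN
    have hbf : BF D W 0 (BdG (gF (20 * m) M) R L D) :=
      bdG_BF hg hW hL0 hn hLd (hlw.trans hsmall)
    obtain ⟨Nm, hNm⟩ := len_bdd D
    have hWr0 : (0:ℝ) < (W:ℝ) := by exact_mod_cast hW1
    have hWp : (0:ℝ) < (W:ℝ) ^ (7/4 : ℝ) := Real.rpow_pos_of_pos hWr0 _
    have hdet : ∀ F ⊆ D.edges, FewF D L W m N K1 M F → ∃ q ∈ SB D W,
        Heavy D W K1 N Nm q F ∨ HolesB D W (BdG (gF (20 * m) M) R L D) N Nm q F := by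
      intro F hF hfew
      by_contra hcon
      push Not at hcon
      obtain ⟨k, l, hkl, hl, hbulk, hlong, hno⟩ := hfew
      obtain ⟨hn1, hn2⟩ := hcon _ (bk_SB hD hF hW1 k)
      have hNm' := hNm F hF
      have h1 := up_det hD hF hW1 (K := K1) (N0 := N) hNm' hkl hl hn1
      have h2 : 98 * N < max (vb D W F k l).card N := by
        have h3 := lt_of_lt_of_le hlong h1
        have h4 := lt_of_mul_lt_mul_left h3 hWp.le
        have h5 := lt_of_mul_lt_mul_left h4 hK1.le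
        exact_mod_cast h5
      have h3 : 98 * N < (vb D W F k l).card := by omega
      obtain ⟨Z, z1, z2, z3⟩ := manyF_det hD hF hW (by omega : 1 ≤ R) (by omega) hNm' hkl hl hbulk
        hn2 (by omega) (by omega)
      exact hno ⟨Z, by omega, z2, z3⟩
    refine (Pr_mono two_ok hdet).trans ?_
    refine (Pr_exists_le two_ok _ _ _).trans ?_
    refine (sum_le_card_nsmul _ _ (20 * (1/2) ^ N) fun q _ => ?_).trans ?_
    · refine (Pr_or_le two_ok _ _ _).trans ?_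
      have h1 := hheavy D W hW1 N Nm q
      have h2 := holesB_pr hW1 hbf N Nm q
      unfold P at h1
      linarith
    · rw [nsmul_eq_mul]

end Pool.Agent.Y41.EV
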