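import Pool.Agent.Y41.EV.StmL
import Pool.Agent.Y995.HG.UpS
import Pool.Agent.Y995.HG.Zero

/-!
The limits spend no time on the boundary.
-/

set_option autoImplicit false

namespace Pool.Agent.Y41.EV

open H974 Finset H342P H984P H984N Pool.Agent.Y985.ME Pool.Agent.Y995.FS Pool.Agent.Y995.HG
open MeasureTheory Filter Topology
open scoped ENNReal NNReal

theorem gm_small : gm ≤ᶠ[𝓝[≥] 0] ((1 : ℝ≥0∞) • fun r : ℝ≥0∞ => r ^ (3/2 : ℝ)) := by
  obtain ⟨r0, hr0⟩ : ∃ r0 : ℝ, r0 = Real.exp (-Real.exp 1) := ⟨_, rfl⟩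
  have hr00 : 0 < r0 := by rw [hr0]; exact Real.exp_pos _
  have h1 : ∀ᶠ r : ℝ≥0∞ in 𝓝[≥] 0, r < ENNReal.ofReal r0 := by
    refine mem_nhdsWithin_of_mem_nhds ?_
    exact Iio_mem_nhds (ENNReal.ofReal_pos.mpr hr00)
  filter_upwards [h1] with r hr
  have hfin : r ≠ ⊤ := (hr.trans_le le_top).ne
  obtain ⟨x, hx⟩ : ∃ x : ℝ, x = r.toReal := ⟨_, rfl⟩
  have hx0 : 0 ≤ x := by rw [hx]; exact ENNReal.toReal_nonneg
  have hxr : x < r0 := by
    rw [hx]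
    have := (ENNReal.toReal_lt_toReal hfin ENNReal.ofReal_ne_top).2 hr
    rwa [ENNReal.toReal_ofReal hr00.le] at this
  have e1 : r ^ (3/2 : ℝ) = ENNReal.ofReal (x ^ (3/2 : ℝ)) := by
    rw [← ENNReal.ofReal_rpow_of_nonneg hx0 (by norm_num), hx, ENNReal.ofReal_toReal hfin]
  show gm r ≤ (1 : ℝ≥0∞) * r ^ (3/2 : ℝ)
  rw [one_mul, e1]
  unfold gm
  rw [← hx]
  refine ENNReal.ofReal_le_ofReal ?_
  unfold ga
  rcases hx0.eq_or_lt with h0 | h0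
  · rw [← h0, Real.zero_rpow (by norm_num), zero_mul, Real.zero_rpow (by norm_num)]
  have h2 := Pool.Agent.Y995.HG.ll_ge h0 (hr0 ▸ hxr.le)
  obtain ⟨L, hL⟩ : ∃ L : ℝ, L = Real.log (Real.log (1 / x)) := ⟨_, rfl⟩
  have hL1 : 1 ≤ L := by rw [hL]; exact h2.2
  have h3 : L ≤ 1 / x := by
    have a1 : L ≤ Real.log (1 / x) := by
      rw [hL]
      exact (Real.log_le_sub_one_of_pos (lt_of_lt_of_le (Real.exp_pos _) h2.1)).trans (by linarith)
    have a2 : Real.log (1 / x) ≤ 1 / x :=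
      (Real.log_le_sub_one_of_pos (by positivity)).trans (by linarith)
    exact a1.trans a2
  have h4 : L ^ (1/8 : ℝ) ≤ (1 / x) ^ (1/4 : ℝ) := by
    calc L ^ (1/8 : ℝ) ≤ L ^ (1/4 : ℝ) := Real.rpow_le_rpow_of_exponent_le hL1 (by norm_num)
      _ ≤ _ := Real.rpow_le_rpow (by linarith) h3 (by norm_num)
  rw [← hL]
  calc x ^ (7/4 : ℝ) * L ^ (1/8 : ℝ) ≤ x ^ (7/4 : ℝ) * (1 / x) ^ (1/4 : ℝ) :=
        mul_le_mul_of_nonneg_left h4 (by positivity)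
    _ = x ^ (3/2 : ℝ) := by
        rw [one_div, Real.inv_rpow h0.le, ← Real.rpow_neg h0.le, ← Real.rpow_add h0]
        norm_num

theorem zero : S_ZERO := by
  intro R δ hδ hlim μ hμ
  obtain ⟨⟨c, hc, hL⟩, ⟨C, hC, hU⟩, C2, hC2, hA⟩ := inputs
  obtain ⟨-, -, h3⟩ := final_of hc hC hL hU hC2 hA R
  obtain ⟨cg, Cg, hcg, hCg, hgs⟩ := gauge_sets
  filter_upwards [h3 δ hδ hlim μ hμ, (hgs R).2 δ hδ hlim μ hμ] with p g1 g2
  obtain ⟨S, hS⟩ : ∃ S : Set unitInterval, S = {u | dep R (p.1 u) ≤ 0} := ⟨_, rfl⟩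
  have h4 := (g2.2 S).1
  have h5 : p.1 '' S ⊆ closure R.D ∩ {z | dep R z ≤ 0} := by
    rintro _ ⟨u, hu, rfl⟩
    rw [hS] at hu
    exact ⟨g1.2.2.2.1 u, hu⟩
  have h6 : dimH (p.1 '' S) ≤ 1 := (dimH_mono h5).trans (dimH_bdry R)
  have h7 : Measure.hausdorffMeasure (3/2) (p.1 '' S) = 0 := by
    have h8 : dimH (p.1 '' S) < ((3/2 : ℝ≥0) : ℝ≥0∞) := by
      refine lt_of_le_of_lt h6 ?_
      have : (1 : ℝ≥0) < 3/2 := by
        rw [← NNReal.coe_lt_coe]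
        norm_num
      exact_mod_cast this
    have h9 := hausdorffMeasure_of_dimH_lt h8
    have e : ((3/2 : ℝ≥0) : ℝ) = 3/2 := by norm_num
    rwa [e] at h9
  have h8 : Measure.mkMetric gm (p.1 '' S) = 0 := by
    have h9 := Measure.mkMetric_mono_smul (X := ℂ) (c := (1 : ℝ≥0∞)) ENNReal.one_ne_top
      one_ne_zero gm_small
    have h10 := h9 (p.1 '' S)
    have h11 : Measure.mkMetric gm (p.1 '' S) ≤
        1 * Measure.hausdorffMeasure (3/2) (p.1 '' S) := h10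
    rw [h7, mul_zero] at h11
    exact le_antisymm h11 zero_le
  rw [h8] at h4
  have h9 : ENNReal.ofReal (cg * p.2) ≠ 0 := by
    rw [Ne, ENNReal.ofReal_eq_zero, not_le]
    exact mul_pos hcg g2.1
  have h10 : ENNReal.ofReal (cg * p.2) * volume S = 0 := le_antisymm h4 zero_le
  rw [mul_eq_zero] at h10
  rw [← hS]
  exact h10.resolve_left h9

end Pool.Agent.Y41.EV
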