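import Pool.Agent.Y41.EV.Asm
import Pool.Agent.Y41.EV.ManyP
import Pool.Agent.Y279.EV.Tree1
import Pool.Agent.Y287.EV.Tree2
import Pool.Agent.Y287.EV.Sc3
import Pool.Agent.Y287.EV.FtOpen
import Pool.Agent.Y287.EV.BadVO
import Pool.Agent.Y419.EV.Sc
import Pool.Agent.Y681.EV.LowBulk
import Pool.Agent.Y41.EV.Zero
import Pool.Agent.Y587.EV.LowAll
import Pool.Agent.Y25.EV.Updet
import Pool.Agent.Y891.EV.LilUp
import Pool.Agent.Y812.EV.Lil
import Pool.Agent.Y884.EVB.Aev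
import Pool.Agent.Y858.EV.FtLat
import Pool.Agent.Y510.EV.FtAe
import Pool.Agent.Y758.EV.LatV
import Pool.Agent.Y988.EV.Ftm
import Pool.Agent.Y941.EV.Fm1
import Pool.Agent.Z864.EV.BadVM
import Pool.Agent.Y490.EV.FM2
import Pool.Agent.Y490.EV.FM2P

/-!
Project EV: all parts together.
-/

set_option autoImplicit false

namespace Pool.Agent.Y41.EV

open Pool.Agent.Y985.ME

theorem goal : Goal := by
  obtain ⟨-, ⟨C, hC, hU⟩, -⟩ := inputs
  have hfm : FM := Pool.Agent.Y490.EV.fm2 Pool.Agent.Y941.EV.t_FM1 Pool.Agent.Y490.EV.fm2p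
    s_blk s_fm C hC hU
  exact goal_of
    (Pool.Agent.Y681.EV.lowbulk (Pool.Agent.Y287.EV.tree2 Pool.Agent.Y279.EV.tree1)
      Pool.Agent.Y419.EV.sc1 Pool.Agent.Y419.EV.sc2 Pool.Agent.Y287.EV.sc3)
    Pool.Agent.Y587.EV.lowall Pool.Agent.Y25.EV.updet Pool.Agent.Y891.EV.t_LILUP
    Pool.Agent.Y812.EV.lillow manyp Pool.Agent.Z864.EV.badvm Pool.Agent.Y758.EV.latv
    Pool.Agent.Y287.EV.badvo Pool.Agent.Y287.EV.sc3 Pool.Agent.Y884.EVB.aev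
    zero hfm Pool.Agent.Y988.EV.ftm Pool.Agent.Y858.EV.ftlat
    Pool.Agent.Y287.EV.ftopen Pool.Agent.Y510.EV.t

end Pool.Agent.Y41.EV
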