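import Pool.Agent.Y41.EV.Base
import Pool.Agent.Y995.HG.Gauge

/-!
Project EV: deterministic statements (nothing is assumed).
-/

set_option autoImplicit false

namespace Pool.Agent.Y41.EV

open MeasureTheory Filter Topology Pool.Agent.Y995.HG

/-! ### Scales: `ww i = (1/2) ^ (4 i²)`, `NN i` from `Pool.Agent.Y995.HG.Gauge` -/

/-- length of the chain of a fast pair -/
noncomputable def kf (K2 : ℝ) (i : ℕ) : ℕ := ⌊Real.log i / (14 * K2)⌋₊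

/-- `exp (2 K2 kf)` -/
noncomputable def EE (K2 : ℝ) (i : ℕ) : ℝ := Real.exp (2 * (K2 * (kf K2 i : ℝ)))

/-- duration of the fast pairs -/
noncomputable def tau (θ K2 : ℝ) (i : ℕ) : ℝ :=
  θ * ((kf K2 i : ℝ) ^ (-(3/4) : ℝ) * ww i ^ (7/4 : ℝ))

/-- duration of the pieces with `NN i` fast pairs -/
noncomputable def ell (A0 K2 : ℝ) (i : ℕ) : ℝ := A0 * ((ww i * EE K2 i) ^ (7/4 : ℝ) * NN i)

/-- gain -/
noncomputable def aa (A0 K2 : ℝ) (i : ℕ) : ℝ := NN i * psi (ww i) / (4 * ell A0 K2 i)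

/-- SC1: the pairs are fast compared with `ψ`. -/
def S_SC1 : Prop := ∀ θ K2 A0 : ℝ, 0 < θ → 1 ≤ K2 → 1 ≤ A0 → ∃ c0 : ℝ, 0 < c0 ∧
  ∀ᶠ i : ℕ in atTop, c0 * (2 * tau θ K2 i + 4 * ell A0 K2 (i + 1)) ≤ psi (ww i)

/-- SC2: the gains have infinite sum. -/
def S_SC2 : Prop := ∀ K2 A0 : ℝ, 1 ≤ K2 → 1 ≤ A0 → ∀ i0 : ℕ,
  Tendsto (fun m : ℕ => ∑ i ∈ Finset.Ico i0 (i0 + m), aa A0 K2 i) atTop atTop

/-- SC3: simple facts about the scales. -/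
def S_SC3 : Prop := ∀ θ K2 A0 : ℝ, 0 < θ → 1 ≤ K2 → 1 ≤ A0 →
  Tendsto (ell A0 K2) atTop (𝓝 0) ∧ Tendsto (tau θ K2) atTop (𝓝 0) ∧
  Tendsto (kf K2) atTop atTop ∧ (∀ i, 0 ≤ tau θ K2 i) ∧
  (∀ᶠ i : ℕ in atTop, 0 < ell A0 K2 i) ∧
  ∀ ρ : ℝ, 0 < ρ → ∀ᶠ i : ℕ in atTop, A0 * (ww i * EE K2 i) ≤ ρ

/-! ### The tree -/

/-- TREE1: one step. -/
def S_TREE1 : Prop := ∀ (f : C(unitInterval, ℂ)) (η T c0 α w τ ℓ : ℝ) (N : ℕ)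
  (s t : unitInterval), 0 < η → 0 < T → 1 ≤ N → 0 ≤ α → α ≤ c0 → 0 < w → 0 < ℓ → s ≤ t →
  c0 * (2 * τ + 4 * ℓ) ≤ psi w → τ ≤ η * T → ℓ ≤ η * T →
  (∀ u v : unitInterval, |(u : ℝ) - v| ≤ η → dist (f u) (f v) ≤ 1) →
  (∀ s' t' : unitInterval, s ≤ s' → s' ≤ t' → t' ≤ t → ℓ < T * ((t' : ℝ) - s') →
    VG f η s' t' (α * (T * ((t' : ℝ) - s')))) →
  PairsO f T w τ N s t → VG f η s t (α * (T * ((t : ℝ) - s)) + N * psi w / 2)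

/-- TREE2: recursion over the scales. -/
def S_TREE2 : Prop := ∀ (f : C(unitInterval, ℂ)) (η T c0 : ℝ) (N : ℕ → ℕ) (ℓ τ w a : ℕ → ℝ)
  (i0 : ℕ) (I0 : Set unitInterval), 0 < η → 0 < T → 0 < c0 →
  (∀ u v : unitInterval, |(u : ℝ) - v| ≤ η → dist (f u) (f v) ≤ 1) →
  (∀ i, i0 ≤ i → 1 ≤ N i ∧ 0 < w i ∧ 0 < ℓ i ∧ 0 ≤ a i ∧ τ i ≤ η * T ∧ ℓ i ≤ η * T) →
  (∀ i, i0 ≤ i → c0 * (2 * τ i + 4 * ℓ (i + 1)) ≤ psi (w i)) →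
  (∀ i, i0 ≤ i → 4 * ℓ i * a i ≤ N i * psi (w i)) →
  (∀ i, i0 ≤ i → ∀ s t : unitInterval, Set.Icc s t ⊆ I0 → ℓ i < T * ((t : ℝ) - s) →
    PairsO f T (w i) (τ i) (N i) s t) →
  ∀ m : ℕ, ∀ s t : unitInterval, Set.Icc s t ⊆ I0 → ℓ i0 < T * ((t : ℝ) - s) →
    VG f η s t (min c0 (∑ i ∈ Finset.Ico i0 (i0 + m), a i) * (T * ((t : ℝ) - s)))

/-- LOWBULK: lower bound in the bulk. -/
def S_LOWBULK : Prop := ∀ θ K2 A0 : ℝ, 0 < θ → 1 ≤ K2 → 1 ≤ A0 → ∃ c0 : ℝ, 0 < c0 ∧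
  ∀ (f : C(unitInterval, ℂ)) (T : ℝ) (I0 : Set unitInterval), 0 < T →
  (∀ᶠ i : ℕ in atTop, ∀ s t : unitInterval, Set.Icc s t ⊆ I0 →
    ell A0 K2 i < T * ((t : ℝ) - s) → Pairs f T (ww i) (tau θ K2 i) (NN i) s t) →
  ∀ s t : unitInterval, s ≤ t → Set.Icc s t ⊆ I0 → ∀ η : ℝ, 0 < η →
    VG f η s t (c0 * T * ((t : ℝ) - s))

/-- LOWALL: from the bulk to all intervals. -/
def S_LOWALL : Prop := ∀ (f : C(unitInterval, ℂ)) (T c0 : ℝ) (g : unitInterval → ℝ),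
  Continuous g → 0 < T → 0 < c0 → volume {u : unitInterval | g u ≤ 0} = 0 →
  (∀ (k : ℕ) (s t : unitInterval), s ≤ t → (∀ u ∈ Set.Icc s t, 1 / ((k : ℝ) + 1) < g u) →
    ∀ η : ℝ, 0 < η → VG f η s t (c0 * T * ((t : ℝ) - s))) →
  LOF f T c0

/-! ### Upper bound and the law of the iterated logarithm -/

/-- UPDET: upper bound for the `ψ`-sums if the fast times are rare. -/
def S_UPDET : Prop := ∀ K : ℝ, 0 < K → ∃ C : ℝ, 0 < C ∧ ∀ p : C(unitInterval, ℂ) × ℝ,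
  0 < p.2 → FTR p K → UPF p.1 p.2 C

/-- LILUP: upper bound at almost every time. -/
def S_LILUP : Prop := ∀ K : ℝ, 0 < K → ∃ C : ℝ, 0 < C ∧ ∀ p : C(unitInterval, ℂ) × ℝ,
  0 < p.2 → FTR p K → ∀ᵐ t : unitInterval, ∀ᶠ s : unitInterval in 𝓝 t,
    dist (p.1 s) (p.1 t) ≤ C * phi (p.2 * |(s : ℝ) - t|)

/-- LILLOW: lower bound at almost every time. -/
def S_LILLOW : Prop := ∀ c C : ℝ, 0 < c → 0 < C → ∃ c' : ℝ, 0 < c' ∧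
  ∀ (f : C(unitInterval, ℂ)) (T : ℝ), 0 < T → UPF f T C → LOF f T c →
  ∀ᵐ t : unitInterval, ∃ᶠ s : unitInterval in 𝓝 t, c' * phi (T * |(s : ℝ) - t|) < dist (f s) (f t)

/-- FTOPEN: the set of the curves with many fast times is open. -/
def S_FTOPEN : Prop := ∀ a y h : ℝ, 0 ≤ a →
  IsOpen {p : C(unitInterval, ℂ) × ℝ | a < p.2 * (volume (FT p y h)).toReal}

/-- P74: the `7/4`-variation is infinite. -/
def S_P74 : Prop := ∀ (f : C(unitInterval, ℂ)) (T c : ℝ), 0 < T → 0 < c → LOF f T c →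
  ∀ s t : unitInterval, s < t → ∀ η M : ℝ, 0 < η → ∃ (n : ℕ) (τ : ℕ → unitInterval),
    Monotone τ ∧ τ 0 = s ∧ τ n = t ∧ (∀ i < n, (τ (i + 1) : ℝ) - τ i ≤ η) ∧
    M ≤ ∑ i ∈ Finset.range n, dist (f (τ i)) (f (τ (i + 1))) ^ (7/4 : ℝ)

end Pool.Agent.Y41.EV
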