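import Pool.Agent.Y41.EV.StmD
import Pool.Agent.Y985.ME.Stm
import Pool.Agent.Y884.ME.Chain
import Pool.Agent.Y994.MC.Scale
import Pool.Agent.Y995.FS.LatG

/-!
Project EV: lattice statements (nothing is assumed).
-/

set_option autoImplicit false

namespace Pool.Agent.Y41.EV

open H974 Finset H342P H984P H984N Y994.MC Pool.Agent.Y985.ME Pool.Agent.Y884.ME
open Pool.Agent.Y995.FS Pool.Agent.Y995.HG MeasureTheory Filter Topology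

/-! ### Lower bound: long pieces contain many fast pairs -/

/-- `N` disjoint pairs `(i, j)`, `k ≤ i ≤ j ≤ l`, of displacement at least `w` and of duration at
most `M`. -/
def LPairs (D : Dm) (F : Finset Edg) (w : ℤ) (M : ℝ) (N k l : ℕ) : Prop :=
  ∃ Z : Finset (ℕ × ℕ), N ≤ Z.card ∧
    (∀ z ∈ Z, ∀ z' ∈ Z, z ≠ z' → z.2 < z'.1 ∨ z'.2 < z.1) ∧
    ∀ z ∈ Z, k ≤ z.1 ∧ z.1 ≤ z.2 ∧ z.2 ≤ l ∧ w ≤ sd (D.walk F z.1).1 (D.walk F z.2).1 ∧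
      ((z.2 - z.1 : ℕ) : ℝ) ≤ M

/-- A long piece in the bulk with few fast pairs. -/
def FewF (D : Dm) (L : ℤ) (W m N : ℕ) (K1 M : ℝ) (F : Finset Edg) : Prop :=
  ∃ k l : ℕ, k ≤ l ∧ l ≤ D.len F ∧ (∀ t, k ≤ t → t ≤ l → 4 * L ≤ D.bd (D.walk F t).1) ∧
    (W : ℝ) ^ (7/4 : ℝ) * (K1 * (98 * N)) < ((l - k + 1 : ℕ) : ℝ) ∧
    ¬ LPairs D F (20 * m) M N k l

/-- MANYP: all long pieces contain many fast pairs. -/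
def S_MANYP : Prop := ∀ c C : ℝ, 0 < c → 0 < C → LowA c (1/4) → TwoUp C (1/4) →
  ∃ θ K2 A1 K1 : ℝ, 0 < θ ∧ 1 ≤ K2 ∧ 1 ≤ A1 ∧ 0 < K1 ∧ ∀ m a kk : ℕ, 1 ≤ a → a ≤ m →
    m ≤ a * kk → 1 ≤ kk → 5 ≤ m → ∃ (W : ℕ) (L : ℤ), (W : ℤ) = 2 * L ∧ 60 * (m : ℤ) ≤ L ∧
      (W : ℝ) ≤ A1 * (m * Real.exp (2 * (K2 * kk))) ∧
      ∀ D : Dm, D.Ok → ∀ N : ℕ, 36 ≤ N →
        P D.edges (FewF D L W m N K1 (θ * kk * (a : ℝ) ^ (7/4 : ℝ))) ≤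
          ((SB D W).card : ℝ) * (20 * (1/2) ^ N)

/-- Curves with a long piece in the bulk with few fast pairs. -/
def BadV (R : Rect) (ρ w τ h : ℝ) (N : ℕ) : Set X :=
  {p | ∃ s t : unitInterval, (∀ u : unitInterval, s ≤ u → u ≤ t → ρ < dep R (p.1 u)) ∧
    h < p.2 * ((t : ℝ) - s) ∧ ¬ Pairs p.1 p.2 w τ N s t}

/-- BADVO -/
def S_BADVO : Prop := ∀ (R : Rect) (ρ w τ h : ℝ) (N : ℕ), IsOpen (BadV R ρ w τ h N)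

/-- BADVM: bad curves at mesh `δ` come from bad pieces of the path. -/
def S_BADVM : Prop := ∀ (R : Rect) (δ ρ w τ h M K1 : ℝ) (m N W : ℕ) (L : ℤ) (F : Finset Edg),
  0 < δ → 0 < w → w ≤ δ * (20 * m - 1/2) → M * δ ^ (7/4 : ℝ) ≤ τ → 0 < K1 →
  δ * (4 * (L : ℝ)) + 2 * δ ≤ ρ →
  ((W : ℝ) ^ (7/4 : ℝ) * (K1 * (98 * N)) + 2) * δ ^ (7/4 : ℝ) ≤ h →
  (R.dm δ).Ok → F ⊆ (R.dm δ).edges → (R.curve δ F, R.time δ F) ∈ BadV R ρ w τ h N →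
  FewF (R.dm δ) L W m N K1 M F

/-- Conclusion of LATV for one rectangle. -/
def LatV (θ K2 A0 : ℝ) (R : Rect) (A : ℝ) : Prop :=
  ∀ (kk N : ℕ) (w ρ : ℝ), 1 ≤ kk → 36 ≤ N → 0 < w → w ≤ 1/2 →
    A0 * (w * Real.exp (2 * (K2 * (kk:ℝ)))) ≤ ρ → ∃ δ1 : ℝ, 0 < δ1 ∧
    ∀ δ : ℝ, 0 < δ → δ ≤ δ1 →
      R.prob δ (fun F => (R.curve δ F, R.time δ F) ∈ BadV R ρ w
        (θ * ((kk : ℝ) ^ (-(3/4) : ℝ) * w ^ (7/4 : ℝ)))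
        (A0 * ((w * Real.exp (2 * (K2 * (kk:ℝ)))) ^ (7/4 : ℝ) * N)) N) ≤
        A / w ^ 2 * (1/2) ^ N

/-- LATV: probability at mesh `δ`. -/
def S_LATV : Prop := S_MANYP → S_BADVM → ∀ c C : ℝ, 0 < c → 0 < C → LowA c (1/4) →
  TwoUp C (1/4) → ∃ θ K2 A0 : ℝ, 0 < θ ∧ 1 ≤ K2 ∧ 1 ≤ A0 ∧ ∀ R : Rect, ∃ A : ℝ, 0 < A ∧
    LatV θ K2 A0 R A

/-- AEV: almost surely. -/
def S_AEV : Prop := S_BADVO → S_SC3 → ∀ (θ K2 A0 : ℝ), 0 < θ → 1 ≤ K2 → 1 ≤ A0 →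
  ∀ (R : Rect) (A : ℝ), 0 < A → LatV θ K2 A0 R A → ∀ δ : ℕ → ℝ, (∀ i, 0 < δ i) →
  Tendsto δ atTop (𝓝 0) → ∀ μ : ProbabilityMeasure X,
  Tendsto (fun i => R.law (δ i)) atTop (𝓝 μ) → ∀ᵐ p ∂(μ : Measure X), ∀ k : ℕ,
    ∀ᶠ i : ℕ in atTop, p ∉ BadV R (1 / ((k : ℝ) + 1)) (ww i) (tau θ K2 i) (ell A0 K2 i) (NN i)

/-- ZERO: the path spends no time on the boundary. -/
def S_ZERO : Prop := ∀ (R : Rect) (δ : ℕ → ℝ), (∀ i, 0 < δ i) → Tendsto δ atTop (𝓝 0) →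
  ∀ μ : ProbabilityMeasure X, Tendsto (fun i => R.law (δ i)) atTop (𝓝 μ) →
  ∀ᵐ p ∂(μ : Measure X), volume {u : unitInterval | dep R (p.1 u) ≤ 0} = 0

/-! ### Upper bound: the fast times are rare -/

open Classical in
/-- Number of the times near which (at most `N` steps) the path has a displacement of at least
`m`. -/
noncomputable def FastT (D : Dm) (F : Finset Edg) (m N : ℕ) : ℕ :=
  ((Finset.range (D.len F + 1)).filter (fun t => ∃ s ≤ D.len F, s ≤ t + N ∧ t ≤ s + N ∧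
    (m : ℤ) ≤ sd (D.walk F s).1 (D.walk F t).1)).card

/-- Number of the times in the block `q`. -/
noncomputable def Nq (D : Dm) (W : ℤ) (q : Vtx) (F : Finset Edg) : ℕ :=
  ((Finset.range (D.len F + 1)).filter (fun t => blk W (D.walk F t).1 = q)).card

/-- Many bad blocks (of side `W`) on a chain near the block `q` of side `4 m`. -/
def NearBad (D : Dm) (W : ℤ) (k m : ℕ) (Bd : Vtx → Finset Edg → Prop) (q : Vtx)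
    (F : Finset Edg) : Prop :=
  ∃ b ∈ Bks D W, (q.1 * (4 * m : ℤ) - 3 * m ≤ b.1 * W ∧ b.1 * W ≤ q.1 * (4 * m : ℤ) + 7 * m ∧
      q.2 * (4 * m : ℤ) - 3 * m ≤ b.2 * W ∧ b.2 * W ≤ q.2 * (4 * m : ℤ) + 7 * m) ∧
    ∃ Q ∈ AS k b, Q.card = k + 1 ∧ ∃ B ∈ Q.powerset,
      (B ⊆ Bks D W ∧ (∀ q ∈ B, ∀ r ∈ B, cls q = cls r) ∧ k + 1 ≤ 98 * B.card) ∧
      ∀ q ∈ B, Bd q F

/-- FM1 (deterministic). -/
def S_FM1 : Prop := ∀ (D : Dm) (W : ℤ) (m N k M : ℕ) (F : Finset Edg)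
  (Bd : Vtx → Finset Edg → Prop), D.Ok → 1 ≤ W → 2 ≤ k → (k : ℤ) * W ≤ m → F ⊆ D.edges →
  98 * (N + 1) < (k + 1) * M →
  (∀ q, ¬ Bd q F → ∀ k l : ℕ, k ≤ l → l ≤ D.len F →
    (∀ t, k ≤ t → t ≤ l → sd (blk W (D.walk F t).1) q ≤ 1) →
    W ≤ sd (D.walk F k).1 (D.walk F l).1 → M ≤ l - k) →
  (FastT D F m N : ℝ) ≤ ∑ q ∈ Bks D (4 * m), ind (Tch D (4 * m) q F) *
    ((Nq D (4 * m) q F : ℝ) * ind (NearBad D W k m Bd q F))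

/-- FM2P: probability and locality. -/
def S_FM2P : Prop := ∀ (D : Dm) (W : ℤ) (m k : ℕ) (Bd : Vtx → Finset Edg → Prop) (q : Vtx),
  D.Ok → 1 ≤ W → 2 ≤ k → (k : ℤ) * W ≤ m → (∀ q F, Bd q F ↔ Bd q (F ∩ Lam D W q)) →
  (∀ q ∈ Bks D W, P D.edges (Bd q) ≤ (1/36) ^ 98) →
  P D.edges (NearBad D W k m Bd q) ≤ (10 * (m : ℝ) / W + 2) ^ 2 * (1/2) ^ (k + 1) ∧
  ∀ F ⊆ D.edges, (NearBad D W k m Bd q F ↔ NearBad D W k m Bd q (F ∩ Lam D (4 * m) q))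

/-- Conclusion of FM2. -/
def FM : Prop := ∃ a : ℝ, 0 < a ∧ ∀ κ : ℝ, 0 < κ → ∃ C1 : ℝ, 0 < C1 ∧
  ∀ (D : Dm) (n x : ℝ) (m N : ℕ), D.Shape κ n → 0 < x → x ≤ 1 →
    C1 * x ^ (-(4/3) : ℝ) ≤ m → 4 * (m : ℝ) ≤ n → (N : ℝ) ≤ x * (m : ℝ) ^ (7/4 : ℝ) →
    E D.edges (fun F => (FastT D F m N : ℝ)) ≤
      C1 * n ^ (7/4 : ℝ) * Real.exp (-(a * x ^ (-(4/3) : ℝ)))

/-- FM2: first moment of the number of fast times. -/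
def S_FM2 : Prop := S_FM1 → S_FM2P → S_BLK → S_FM → ∀ C : ℝ, 0 < C → TwoUp C (1/4) → FM

/-- FTM: from the curve to the path. -/
def S_FTM : Prop := ∀ (R : Rect) (δ y h : ℝ) (m N : ℕ) (F : Finset Edg), 0 < δ →
  (2 * (m : ℝ) + 2) * δ ≤ y → h ≤ N * δ ^ (7/4 : ℝ) →
  R.time δ F * (volume (FT (R.curve δ F, R.time δ F) y h)).toReal ≤
    δ ^ (7/4 : ℝ) * FastT (R.dm δ) F m N

/-- Conclusion of FTLAT. -/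
def FTL (a B : ℝ) (R : Rect) (A y0 : ℝ) : Prop :=
  ∀ y h b : ℝ, 0 < y → y ≤ y0 → 0 < h → B * h ≤ y ^ (7/4 : ℝ) → 0 < b →
    ∃ δ1 : ℝ, 0 < δ1 ∧ ∀ δ : ℝ, 0 < δ → δ ≤ δ1 →
      R.prob δ (fun F => (R.curve δ F, R.time δ F) ∈
        {p : X | b < p.2 * (volume (FT p y h)).toReal}) ≤
        A * Real.exp (-(a * (y ^ (7/4 : ℝ) / h) ^ (4/3 : ℝ))) / b

/-- FTLAT: probability at mesh `δ`. -/
def S_FTLAT : Prop := FM → S_FTM → ∃ a B : ℝ, 0 < a ∧ 0 < B ∧ ∀ R : Rect, ∃ A y0 : ℝ,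
  0 < A ∧ 0 < y0 ∧ FTL a B R A y0

/-- FTAE: almost surely the fast times are rare. -/
def S_FTAE : Prop := S_FTOPEN → ∀ a B : ℝ, 0 < a → 0 < B → ∃ K : ℝ, 0 < K ∧
  ∀ (R : Rect) (A y0 : ℝ), 0 < A → 0 < y0 → FTL a B R A y0 → ∀ δ : ℕ → ℝ, (∀ i, 0 < δ i) →
  Tendsto δ atTop (𝓝 0) → ∀ μ : ProbabilityMeasure X,
  Tendsto (fun i => R.law (δ i)) atTop (𝓝 μ) → ∀ᵐ p ∂(μ : Measure X), FTR p K

end Pool.Agent.Y41.EV
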